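import Pool.Agent.Lib_helper11.TD.Lin

set_option autoImplicit false

namespace Pool.Agent.TD

variable {k V : Type*} [Field k] [AddCommGroup V] [Module k V]

/-- TD9 -/
theorem td_cart [CharZero k] (b : LinearMap.BilinForm k V) (hs : ∀ x y, b x y = b y x) {r : ℕ}
    (v : Fin r → V) (N : k) (hN : N ≠ 0) (hv : ∀ i, b (v i) (v i) = N)
    (h1 : ∀ i j : Fin r, (i : ℕ) + 1 = j → (2 * b (v i) (v j) / N) ^ 2 = 1)
    (h0 : ∀ i j : Fin r, (i : ℕ) + 1 < j → b (v i) (v j) = 0) : LinearIndependent k v := by
  classical
  rw [Fintype.linearIndependent_iff]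
  intro g hg
  set X : ℕ → k := fun n => if h : n < r then g ⟨n, h⟩ else 0 with hX
  set B : ℕ → ℕ → k := fun i j =>
    if h : i < r ∧ j < r then b (v ⟨i, h.1⟩) (v ⟨j, h.2⟩) else 0 with hB
  set a : ℕ → k := fun n => if n + 1 < r then 2 * B n (n + 1) / N else 1 with ha
  have hXr : ∀ n, r ≤ n → X n = 0 := fun n hn => by
    rw [hX]
    simp only
    rw [dif_neg (by omega)]
  have hBs : ∀ i j, B i j = B j i := by
    intro i j
    rw [hB]
    simp only
    by_cases h : i < r ∧ j < r
    · rw [dif_pos h, dif_pos ⟨h.2, h.1⟩, hs]
    · rw [dif_neg h, dif_neg (fun h' => h ⟨h'.2, h'.1⟩)]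
  have hBd : ∀ i, i < r → B i i = N := by
    intro i hi
    rw [hB]
    simp only
    rw [dif_pos ⟨hi, hi⟩, hv]
  have hB0 : ∀ i j, i + 1 < j → B i j = 0 := by
    intro i j hij
    rw [hB]
    simp only
    by_cases h : i < r ∧ j < r
    · rw [dif_pos h]
      exact h0 ⟨i, h.1⟩ ⟨j, h.2⟩ hij
    · rw [dif_neg h]
  have ha2 : ∀ n, a n ^ 2 = 1 := by
    intro n
    rw [ha]
    simp only
    split_ifs with h
    · have := h1 ⟨n, by omega⟩ ⟨n + 1, h⟩ rfl
      rw [hB]
      simp only
      rw [dif_pos ⟨by omega, h⟩]
      exact this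
    · simp
  have haX : ∀ n, a n * X (n + 1) = 2 * B n (n + 1) / N * X (n + 1) := by
    intro n
    by_cases h : n + 1 < r
    · rw [ha]
      simp only
      rw [if_pos h]
    · rw [hXr (n + 1) (by omega)]
      ring
  have heq : ∀ j, j < r → ∑ n ∈ Finset.range (r + 1), X n * B j n = 0 := by
    intro j hj
    have e1 : b (v ⟨j, hj⟩) (∑ i, g i • v i) = 0 := by rw [hg, map_zero]
    rw [map_sum] at e1
    rw [Finset.sum_range_succ, hXr r le_rfl, zero_mul, add_zero, ← Fin.sum_univ_eq_sum_range
      (fun n => X n * B j n) r, ← e1]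
    refine Finset.sum_congr rfl fun i _ => ?_
    rw [hX, hB]
    simp only
    rw [dif_pos i.2, dif_pos ⟨hj, i.2⟩, map_smul, smul_eq_mul]
  set s : ℕ → k := fun n => Nat.rec 1 (fun m t => -a m * t) n with hsd
  have hs0 : s 0 = 1 := rfl
  have hs1 : ∀ n, s (n + 1) = -a n * s n := fun n => rfl
  have hss : ∀ n, s n ^ 2 = 1 := by
    intro n
    induction n with
    | zero => rw [hs0]; ring
    | succ n ih => rw [hs1, mul_pow, neg_sq, ha2, ih, one_mul]
  have key : ∀ n, (n ≤ r → s n * X n = (n + 1 : ℕ) * X 0) ∧
      (n + 1 ≤ r → s (n + 1) * X (n + 1) = (n + 2 : ℕ) * X 0) := by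
    intro n
    induction n with
    | zero =>
      refine ⟨fun _ => by rw [hs0]; push_cast; ring, fun h => ?_⟩
      have e := heq 0 (by omega)
      have e2 : ∑ n ∈ Finset.range (r + 1), X n * B 0 n = X 0 * B 0 0 + X 1 * B 0 1 := by
        have : ∑ n ∈ ({0, 1} : Finset ℕ), X n * B 0 n = ∑ n ∈ Finset.range (r + 1), X n * B 0 n := by
          refine Finset.sum_subset ?_ ?_
          · intro n hn
            simp only [Finset.mem_insert, Finset.mem_singleton] at hn
            rw [Finset.mem_range]
            omega
          · intro n _ hn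
            simp only [Finset.mem_insert, Finset.mem_singleton] at hn
            rw [hB0 0 n (by omega), mul_zero]
        rw [← this, Finset.sum_pair (by norm_num)]
      rw [e2, hBd 0 (by omega)] at e
      have e3 : a 0 * X 1 = -(2 * X 0) := by
        rw [haX 0]
        field_simp
        linear_combination e
      rw [hs1, hs0]
      push_cast
      linear_combination -e3
    | succ m ih =>
      refine ⟨fun h => ?_, fun h => ?_⟩
      · have := ih.2 h
        push_cast at this ⊢
        rw [this]
        ring
      · have i1 := ih.1 (by omega)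
        have i2 := ih.2 (by omega)
        have e := heq (m + 1) (by omega)
        have e2 : ∑ n ∈ Finset.range (r + 1), X n * B (m + 1) n =
            X m * B (m + 1) m + (X (m + 1) * B (m + 1) (m + 1) + X (m + 2) * B (m + 1) (m + 2)) := by
          have : ∑ n ∈ ({m, m + 1, m + 2} : Finset ℕ), X n * B (m + 1) n =
              ∑ n ∈ Finset.range (r + 1), X n * B (m + 1) n := by
            refine Finset.sum_subset ?_ ?_
            · intro n hn
              simp only [Finset.mem_insert, Finset.mem_singleton] at hn
              rw [Finset.mem_range]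
              omega
            · intro n _ hn
              simp only [Finset.mem_insert, Finset.mem_singleton] at hn
              rcases Nat.lt_or_ge n m with h' | h'
              · rw [hBs, hB0 n (m + 1) (by omega), mul_zero]
              · rw [hB0 (m + 1) n (by omega), mul_zero]
          rw [← this, Finset.sum_insert (by simp), Finset.sum_pair (by omega)]
        rw [e2, hBd (m + 1) (by omega), hBs (m + 1) m] at e
        have am : a m = 2 * B m (m + 1) / N := by
          rw [ha]
          simp only
          rw [if_pos (by omega)]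
        have e3 : a (m + 1) * X (m + 2) = -(2 * X (m + 1)) - a m * X m := by
          have := haX (m + 1)
          rw [show m + 1 + 1 = m + 2 from rfl] at this
          rw [this, am]
          field_simp
          linear_combination e
        have e4 : s (m + 1) * a m = - s m := by
          rw [hs1]
          have := ha2 m
          linear_combination (-(s m)) * this
        rw [show m + 1 + 1 = m + 2 from rfl, show s (m + 2) = -a (m + 1) * s (m + 1) from rfl]
        push_cast at i1 i2 ⊢
        linear_combination (-(s (m + 1))) * e3 + 2 * i2 + X m * e4 - i1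
  have hX0 : X 0 = 0 := by
    have h := (key r).1 le_rfl
    rw [hXr r le_rfl, mul_zero] at h
    have h2 : ((r + 1 : ℕ) : k) ≠ 0 := by exact_mod_cast Nat.succ_ne_zero r
    rcases mul_eq_zero.1 h.symm with h3 | h3
    · exact absurd h3 h2
    · exact h3
  intro i
  have h := (key i).1 i.2.le
  rw [hX0, mul_zero] at h
  have hsi : s i ≠ 0 := by
    intro h3
    have := hss i
    rw [h3] at this
    norm_num at this
  rcases mul_eq_zero.1 h with h3 | h3
  · exact absurd h3 hsi
  · rw [hX] at h3
    simp only at h3
    rw [dif_pos i.2] at h3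
    exact h3

end Pool.Agent.TD
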